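import Mathlib

/-!
# Rational positive semidefinite completions on cycles

We prove that every rational vector `x` indexed by the edges of a cycle `C_n` (`n ≥ 3`) which has a
real psd completion (a real psd matrix with unit diagonal whose entries on the edges are given by
`x`) has a psd completion all of whose entries are rational.  For `n = 5` this answers the question
for the `5`-cycle.

The proof: feasibility is described by the cycle inequalities for the angles `arccos x_e`.  A chord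
can be given a rational value whenever its interval of feasible angles is nondegenerate.  If it is
degenerate then one obtains nonnegative angles with rational cosines summing up to `π`, and the
Galois-theoretic lemma `galois_key` shows that all partial sums have rational cosines.
-/

namespace Pool.Agent.Results.MP_dcc435_co.CycleRationalCompletion

open Finset
open scoped MatrixOrder InnerProductSpace

/-- Key Galois-theoretic lemma. -/
lemma galois_key {ι : Type*} [Fintype ι] [DecidableEq ι] (t : ι → ℝ) (h0 : ∀ i, 0 ≤ t i)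
    (hq : ∀ i, ∃ q : ℚ, Real.cos (t i) = q) (hs : ∑ i, t i = Real.pi) (S : Finset ι) :
    ∃ q : ℚ, Real.cos (∑ i ∈ S, t i) = q := by
  classical
  choose q hq using hq
  set u : ι → ℂ := fun i => Complex.exp (t i * Complex.I) with hu
  have hune : ∀ i, u i ≠ 0 := fun i => Complex.exp_ne_zero _
  have hquad : ∀ i, u i ^ 2 - 2 * (q i : ℂ) * u i + 1 = 0 := by
    intro i
    have hc : (Real.cos (t i) : ℂ) = (q i : ℂ) := by
      rw [hq i]; norm_cast
    rw [← hc]
    simp only [hu]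
    rw [Complex.ofReal_cos, Complex.cos]
    have : Complex.exp (-(t i : ℂ) * Complex.I) = (Complex.exp ((t i : ℂ) * Complex.I))⁻¹ := by
      rw [← Complex.exp_neg]; congr 1; ring
    rw [this]
    field_simp
    ring
  have halg : ∀ i, u i ∈ algebraicClosure ℚ ℂ := by
    intro i
    rw [mem_algebraicClosure_iff]
    refine ⟨Polynomial.X ^ 2 - Polynomial.C (2 * q i) * Polynomial.X + 1, ?_, ?_⟩
    · intro h
      have := congrArg (fun p => Polynomial.coeff p 0) h
      simp at this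
    · simp only [map_add, map_sub, map_pow, map_mul, Polynomial.aeval_X, Polynomial.aeval_C, map_one]
      have := hquad i
      simpa using this
  let K := algebraicClosure ℚ ℂ
  let U : ι → K := fun i => ⟨u i, halg i⟩
  have hUne : ∀ i, U i ≠ 0 := by
    intro i h
    apply hune i
    exact congrArg Subtype.val h
  have hquadK : ∀ i, U i ^ 2 - 2 * (algebraMap ℚ K (q i)) * U i + 1 = 0 := by
    intro i
    apply Subtype.ext
    have h := hquad i
    have h2 : ((U i ^ 2 - 2 * (algebraMap ℚ K (q i)) * U i + 1 : K) : ℂ) = u i ^ 2 - 2 * (q i : ℂ) * u i + 1 := by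
      push_cast
      rfl
    rw [h2, h]
    rfl
  have hprod : ∏ i, U i = -1 := by
    apply Subtype.ext
    have : ((∏ i, U i : K) : ℂ) = ∏ i, u i := by
      simp [U]
    rw [this]
    simp only [hu]
    rw [← Complex.exp_sum, ← Finset.sum_mul]
    have : (∑ i, (t i : ℂ)) = (Real.pi : ℂ) := by
      rw [← hs]; push_cast; rfl
    rw [this, Complex.exp_pi_mul_I]
    simp
  have : IsAlgClosure ℚ K := algebraicClosure.isAlgClosure ℚ ℂ
  have : IsGalois ℚ K := IsAlgClosure.isGalois ℚ K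
  have hz : (∏ i ∈ S, U i + ∏ i ∈ S, (U i)⁻¹) ∈ Set.range (algebraMap ℚ K) := by
    rw [InfiniteGalois.mem_range_algebraMap_iff_fixed]
    intro σ
    -- each U i is mapped to itself or its inverse
    have hσ : ∀ i, σ (U i) = U i ∨ σ (U i) = (U i)⁻¹ := by
      intro i
      have h1 := congrArg σ (hquadK i)
      simp only [map_add, map_sub, map_pow, map_mul, map_one, map_zero, map_ofNat] at h1
      rw [AlgEquiv.commutes] at h1
      have h2 := hquadK i
      have h3 : (σ (U i) - U i) * (σ (U i) * U i - 1) = 0 := by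
        linear_combination (U i) * h1 - (σ (U i)) * h2
      rcases mul_eq_zero.mp h3 with h | h
      · left; exact sub_eq_zero.mp h
      · right; exact eq_inv_of_mul_eq_one_left (sub_eq_zero.mp h)
    set P : Finset ι := Finset.univ.filter (fun i => σ (U i) = U i) with hP
    have hsplit : (∏ i ∈ P, U i) * (∏ i ∈ Pᶜ, U i) = -1 := by
      rw [Finset.prod_mul_prod_compl, hprod]
    have hsplit2 : (∏ i ∈ P, U i) * (∏ i ∈ Pᶜ, (U i)⁻¹) = -1 := by
      have h1 : σ (∏ i, U i) = -1 := by rw [hprod]; simp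
      rw [map_prod, ← Finset.prod_mul_prod_compl P] at h1
      have h2 : ∏ i ∈ P, σ (U i) = ∏ i ∈ P, U i := by
        apply Finset.prod_congr rfl
        intro i hi
        simpa [hP] using hi
      have h3 : ∏ i ∈ Pᶜ, σ (U i) = ∏ i ∈ Pᶜ, (U i)⁻¹ := by
        apply Finset.prod_congr rfl
        intro i hi
        rcases hσ i with h | h
        · simp [hP, h] at hi
        · exact h
      rw [h2, h3] at h1
      exact h1
    have hsq : (∏ i ∈ P, U i) ^ 2 = 1 := by
      have hne : (∏ i ∈ Pᶜ, U i) ≠ 0 := Finset.prod_ne_zero_iff.mpr (fun i _ => hUne i)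
      rw [Finset.prod_inv_distrib] at hsplit2
      have : (∏ i ∈ P, U i) ^ 2 * ((∏ i ∈ Pᶜ, U i) * (∏ i ∈ Pᶜ, U i)⁻¹) = 1 := by
        calc _ = ((∏ i ∈ P, U i) * (∏ i ∈ Pᶜ, U i)) * ((∏ i ∈ P, U i) * (∏ i ∈ Pᶜ, U i)⁻¹) := by ring
          _ = 1 := by rw [hsplit, hsplit2]; ring
      rwa [mul_inv_cancel₀ hne, mul_one] at this
    have hexp : Complex.exp ((2 * ∑ i ∈ P, t i : ℝ) * Complex.I) = 1 := by
      have h1 := congrArg (Subtype.val) hsq
      have h2 : (((∏ i ∈ P, U i) ^ 2 : K) : ℂ) = (∏ i ∈ P, u i) ^ 2 := by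
        simp [U]
      rw [h2] at h1
      simp only [hu] at h1
      rw [← Complex.exp_sum, ← Finset.sum_mul, ← Complex.exp_nat_mul] at h1
      have h3 : ((2 : ℕ) : ℂ) * ((∑ i ∈ P, (t i : ℂ)) * Complex.I) = ((2 * ∑ i ∈ P, t i : ℝ) * Complex.I) := by
        push_cast; ring
      rw [h3] at h1
      simpa using h1
    rw [Complex.exp_eq_one_iff] at hexp
    obtain ⟨n, hn⟩ := hexp
    have hn' : (∑ i ∈ P, t i) = n * Real.pi := by
      have h1 : ((2 * ∑ i ∈ P, t i : ℝ) : ℂ) = ((n * (2 * Real.pi) : ℝ) : ℂ) := by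
        have h2 : ((2 * ∑ i ∈ P, t i : ℝ) : ℂ) * Complex.I = ((n * (2 * Real.pi) : ℝ) : ℂ) * Complex.I := by
          rw [hn]; push_cast; ring
        exact mul_right_cancel₀ Complex.I_ne_zero h2
      have h3 : 2 * ∑ i ∈ P, t i = n * (2 * Real.pi) := by exact_mod_cast h1
      linarith
    have hle : ∑ i ∈ P, t i ≤ Real.pi := by
      rw [← hs]
      exact Finset.sum_le_sum_of_subset_of_nonneg (Finset.subset_univ _) (fun i _ _ => h0 i)
    have hge : 0 ≤ ∑ i ∈ P, t i := Finset.sum_nonneg (fun i _ => h0 i)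
    have hpi := Real.pi_pos
    have hn01 : n = 0 ∨ n = 1 := by
      have h1 : (0 : ℝ) ≤ n := by
        by_contra hlt
        push Not at hlt
        have : (n : ℝ) * Real.pi < 0 := mul_neg_of_neg_of_pos hlt hpi
        linarith
      have h2 : (n : ℝ) ≤ 1 := by
        by_contra hlt
        push Not at hlt
        have : 1 * Real.pi < (n : ℝ) * Real.pi := mul_lt_mul_of_pos_right hlt hpi
        linarith
      have h1' : 0 ≤ n := by exact_mod_cast h1
      have h2' : n ≤ 1 := by exact_mod_cast h2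
      omega
    -- in either case σ acts uniformly
    have hone : ∀ i, t i = 0 → (U i) = 1 := by
      intro i hi
      apply Subtype.ext
      simp [U, hu, hi]
    rcases hn01 with h | h
    · -- sum over P is zero
      have hz : ∑ i ∈ P, t i = 0 := by rw [hn', h]; simp
      have hz' : ∀ i ∈ P, t i = 0 := (Finset.sum_eq_zero_iff_of_nonneg (fun i _ => h0 i)).mp hz
      have hall : ∀ i, σ (U i) = (U i)⁻¹ := by
        intro i
        rcases hσ i with h | h
        · have : U i = 1 := hone i (hz' i (by simp [hP, h]))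
          rw [this]; simp
        · exact h
      rw [map_add, map_prod, map_prod]
      simp only [map_inv₀, hall, inv_inv]
      rw [add_comm]
    · have hz : ∑ i ∈ Pᶜ, t i = 0 := by
        have := Finset.sum_add_sum_compl P t
        rw [hn', h, hs] at this
        push_cast at this
        linarith
      have hz' : ∀ i ∈ Pᶜ, t i = 0 := (Finset.sum_eq_zero_iff_of_nonneg (fun i _ => h0 i)).mp hz
      have hall : ∀ i, σ (U i) = (U i) := by
        intro i
        by_cases hi : i ∈ P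
        · simpa [hP] using hi
        · have : U i = 1 := hone i (hz' i (by simpa using hi))
          rw [this]; simp
      rw [map_add, map_prod, map_prod]
      simp only [map_inv₀, hall]
  obtain ⟨r, hr⟩ := hz
  refine ⟨r / 2, ?_⟩
  have h1 := congrArg Subtype.val hr
  have h2 : ((∏ i ∈ S, U i + ∏ i ∈ S, (U i)⁻¹ : K) : ℂ) = ∏ i ∈ S, u i + (∏ i ∈ S, u i)⁻¹ := by
    simp [U]
  rw [h2] at h1
  simp only [hu] at h1
  rw [← Complex.exp_sum, ← Finset.sum_mul, ← Complex.exp_neg] at h1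
  have h3 : Complex.cos (∑ i ∈ S, (t i : ℂ)) = (r : ℂ) / 2 := by
    rw [Complex.cos]
    have h4 : -(∑ i ∈ S, (t i : ℂ)) * Complex.I = -((∑ i ∈ S, (t i : ℂ)) * Complex.I) := by ring
    rw [h4, ← h1]
    simp
  have h5 : ((Real.cos (∑ i ∈ S, t i) : ℝ) : ℂ) = (((r / 2 : ℚ) : ℝ) : ℂ) := by
    push_cast
    exact h3
  exact_mod_cast h5


/-- `s` is a finite sum of nonnegative angles with rational cosines. -/
def RatSum (s : ℝ) : Prop :=
  ∃ l : List ℝ, (∀ t ∈ l, 0 ≤ t ∧ ∃ q : ℚ, Real.cos t = q) ∧ l.sum = s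

lemma RatSum.zero : RatSum 0 := ⟨[], by simp, by simp⟩

lemma RatSum.of {t : ℝ} (h : 0 ≤ t) (hq : ∃ q : ℚ, Real.cos t = q) : RatSum t :=
  ⟨[t], by simpa using ⟨h, hq⟩, by simp⟩

lemma RatSum.add {a b : ℝ} (ha : RatSum a) (hb : RatSum b) : RatSum (a + b) := by
  obtain ⟨l, hl, rfl⟩ := ha
  obtain ⟨l', hl', rfl⟩ := hb
  refine ⟨l ++ l', ?_, by simp⟩
  intro t ht
  rcases List.mem_append.mp ht with h | h
  · exact hl t h
  · exact hl' t h

lemma RatSum.nonneg {a : ℝ} (ha : RatSum a) : 0 ≤ a := by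
  obtain ⟨l, hl, rfl⟩ := ha
  exact List.sum_nonneg (fun t ht => (hl t ht).1)

lemma cos_pi_sub_rat {t : ℝ} (hq : ∃ q : ℚ, Real.cos t = q) :
    ∃ q : ℚ, Real.cos (Real.pi - t) = q := by
  obtain ⟨q, hq⟩ := hq
  exact ⟨-q, by rw [Real.cos_pi_sub, hq]; simp⟩

lemma cos_rational_of_ratSum {a b : ℝ} (ha : RatSum a) (hb : RatSum b) (hab : a + b = Real.pi) :
    ∃ q : ℚ, Real.cos a = q := by
  obtain ⟨l, hl, rfl⟩ := ha
  obtain ⟨l', hl', rfl⟩ := hb
  have h1 : ∀ l : List ℝ, ∑ i : Fin l.length, l.get i = l.sum := by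
    intro l
    conv_rhs => rw [← List.ofFn_get l]
    rw [List.sum_ofFn]
  have key := galois_key (ι := Fin l.length ⊕ Fin l'.length) (Sum.elim l.get l'.get)
    (by
      rintro (i | i)
      · exact (hl _ (l.get_mem i)).1
      · exact (hl' _ (l'.get_mem i)).1)
    (by
      rintro (i | i)
      · exact (hl _ (l.get_mem i)).2
      · exact (hl' _ (l'.get_mem i)).2)
    (by
      rw [Fintype.sum_sum_type]
      simp only [Sum.elim_inl, Sum.elim_inr]
      rw [h1, h1, hab])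
    (Finset.univ.map ⟨Sum.inl, Sum.inl_injective⟩)
  obtain ⟨q, hq⟩ := key
  refine ⟨q, ?_⟩
  rw [← hq, Finset.sum_map]
  simp only [Function.Embedding.coeFn_mk, Sum.elim_inl]
  rw [h1]

/-- A point with rational cosine separating finite sets of lower and upper bounds. -/
lemma exists_separating (A B : Finset ℝ) (h0 : (0 : ℝ) ∈ A) (hpi : Real.pi ∈ B)
    (hab : ∀ a ∈ A, ∀ b ∈ B, a ≤ b) (hA : ∀ a ∈ A, RatSum (Real.pi - a))
    (hB : ∀ b ∈ B, RatSum b) :
    ∃ φ : ℝ, (∀ a ∈ A, a ≤ φ) ∧ (∀ b ∈ B, φ ≤ b) ∧ ∃ q : ℚ, Real.cos φ = q := by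
  have hAne : A.Nonempty := ⟨0, h0⟩
  have hBne : B.Nonempty := ⟨_, hpi⟩
  have hamem := A.max'_mem hAne
  have hbmem := B.min'_mem hBne
  set a := A.max' hAne with ha
  set b := B.min' hBne with hb
  have hle : a ≤ b := hab _ hamem _ hbmem
  have ha0 : 0 ≤ a := A.le_max' _ h0
  have hbpi : b ≤ Real.pi := B.min'_le _ hpi
  rcases hle.eq_or_lt with h | h
  · refine ⟨b, fun a' ha' => (A.le_max' _ ha').trans hle, fun b' hb' => B.min'_le _ hb', ?_⟩
    refine cos_rational_of_ratSum (hB _ hbmem) (hA _ hamem) ?_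
    rw [h]; ring
  · have hcos : Real.cos b < Real.cos a :=
      Real.strictAntiOn_cos ⟨ha0, by linarith⟩ ⟨by linarith, hbpi⟩ h
    obtain ⟨q, hq1, hq2⟩ := exists_rat_btwn hcos
    have hq1' : (-1 : ℝ) ≤ q := le_trans (Real.neg_one_le_cos _) hq1.le
    have hq2' : (q : ℝ) ≤ 1 := le_trans hq2.le (Real.cos_le_one _)
    have hcosq : Real.cos (Real.arccos q) = q := Real.cos_arccos hq1' hq2'
    have e1 : a < Real.arccos q := by
      have := Real.arccos_lt_arccos hq1' hq2 (Real.cos_le_one _)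
      rwa [Real.arccos_cos ha0 (by linarith)] at this
    have e2 : Real.arccos q < b := by
      have := Real.arccos_lt_arccos (Real.neg_one_le_cos _) hq1 hq2'
      rwa [Real.arccos_cos (by linarith) hbpi] at this
    refine ⟨Real.arccos q, fun a' ha' => (A.le_max' _ ha').trans e1.le,
      fun b' hb' => e2.le.trans (B.min'_le _ hb'), ⟨q, hcosq⟩⟩

open Classical in
/-- The finite sets of even and odd bounds for a path with angles `θ 0, …, θ (m-1)`: sums of the
`θ i`, with an even (resp. odd) number of them replaced by `π - θ i`. -/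
noncomputable def EO (θ : ℕ → ℝ) : ℕ → Finset ℝ × Finset ℝ
  | 0 => ({0}, ∅)
  | (m + 1) =>
    ((EO θ m).1.image (fun e => e + θ m) ∪ (EO θ m).2.image (fun o => o + (Real.pi - θ m)),
      (EO θ m).2.image (fun o => o + θ m) ∪ (EO θ m).1.image (fun e => e + (Real.pi - θ m)))

lemma EO_E_left {θ : ℕ → ℝ} {m : ℕ} {e : ℝ} (h : e ∈ (EO θ m).1) : e + θ m ∈ (EO θ (m + 1)).1 := by
  classical
  simp only [EO, Finset.mem_union, Finset.mem_image]
  exact Or.inl ⟨e, h, rfl⟩

lemma EO_E_right {θ : ℕ → ℝ} {m : ℕ} {e : ℝ} (h : e ∈ (EO θ m).2) :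
    e + (Real.pi - θ m) ∈ (EO θ (m + 1)).1 := by
  classical
  simp only [EO, Finset.mem_union, Finset.mem_image]
  exact Or.inr ⟨e, h, rfl⟩

lemma EO_O_left {θ : ℕ → ℝ} {m : ℕ} {e : ℝ} (h : e ∈ (EO θ m).2) : e + θ m ∈ (EO θ (m + 1)).2 := by
  classical
  simp only [EO, Finset.mem_union, Finset.mem_image]
  exact Or.inl ⟨e, h, rfl⟩

lemma EO_O_right {θ : ℕ → ℝ} {m : ℕ} {e : ℝ} (h : e ∈ (EO θ m).1) :
    e + (Real.pi - θ m) ∈ (EO θ (m + 1)).2 := by
  classical
  simp only [EO, Finset.mem_union, Finset.mem_image]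
  exact Or.inr ⟨e, h, rfl⟩

lemma EO_E_cases {θ : ℕ → ℝ} {m : ℕ} {e : ℝ} (h : e ∈ (EO θ (m + 1)).1) :
    (∃ e' ∈ (EO θ m).1, e = e' + θ m) ∨ ∃ o ∈ (EO θ m).2, e = o + (Real.pi - θ m) := by
  classical
  simp only [EO, Finset.mem_union, Finset.mem_image] at h
  rcases h with ⟨a, ha, rfl⟩ | ⟨a, ha, rfl⟩
  · exact Or.inl ⟨a, ha, rfl⟩
  · exact Or.inr ⟨a, ha, rfl⟩

lemma EO_O_cases {θ : ℕ → ℝ} {m : ℕ} {e : ℝ} (h : e ∈ (EO θ (m + 1)).2) :
    (∃ o ∈ (EO θ m).2, e = o + θ m) ∨ ∃ e' ∈ (EO θ m).1, e = e' + (Real.pi - θ m) := by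
  classical
  simp only [EO, Finset.mem_union, Finset.mem_image] at h
  rcases h with ⟨a, ha, rfl⟩ | ⟨a, ha, rfl⟩
  · exact Or.inl ⟨a, ha, rfl⟩
  · exact Or.inr ⟨a, ha, rfl⟩

/-- All the bounds are sums of nonnegative angles with rational cosines. -/
lemma EO_ratSum (θ : ℕ → ℝ) (hθ0 : ∀ i, 0 ≤ θ i) (hθpi : ∀ i, θ i ≤ Real.pi)
    (hq : ∀ i, ∃ q : ℚ, Real.cos (θ i) = q) (m : ℕ) :
    (∀ e ∈ (EO θ m).1, RatSum e) ∧ ∀ o ∈ (EO θ m).2, RatSum o := by
  have h1 : ∀ i, RatSum (θ i) := fun i => RatSum.of (hθ0 i) (hq i)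
  have h2 : ∀ i, RatSum (Real.pi - θ i) :=
    fun i => RatSum.of (by linarith [hθpi i]) (cos_pi_sub_rat (hq i))
  induction m with
  | zero =>
    constructor
    · intro e he
      simp [EO] at he
      rw [he]; exact RatSum.zero
    · intro o ho
      simp [EO] at ho
  | succ m ih =>
    constructor
    · intro e he
      rcases EO_E_cases he with ⟨a, ha, rfl⟩ | ⟨a, ha, rfl⟩
      · exact (ih.1 a ha).add (h1 m)
      · exact (ih.2 a ha).add (h2 m)
    · intro e he
      rcases EO_O_cases he with ⟨a, ha, rfl⟩ | ⟨a, ha, rfl⟩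
      · exact (ih.2 a ha).add (h1 m)
      · exact (ih.1 a ha).add (h2 m)

/-- An even bound plus an odd bound is at least `π`. -/
lemma EO_add (θ : ℕ → ℝ) (hθ0 : ∀ i, 0 ≤ θ i) (hθpi : ∀ i, θ i ≤ Real.pi) (m : ℕ) :
    (∀ e ∈ (EO θ m).1, 0 ≤ e) ∧ (∀ o ∈ (EO θ m).2, 0 ≤ o) ∧
    ∀ e ∈ (EO θ m).1, ∀ o ∈ (EO θ m).2, Real.pi ≤ e + o := by
  induction m with
  | zero => simp [EO]
  | succ m ih =>
    obtain ⟨ih1, ih2, ih3⟩ := ih
    have h0 := hθ0 m
    have h1 := hθpi m
    refine ⟨?_, ?_, ?_⟩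
    · intro e he
      rcases EO_E_cases he with ⟨a, ha, rfl⟩ | ⟨a, ha, rfl⟩
      · linarith [ih1 a ha]
      · linarith [ih2 a ha]
    · intro e he
      rcases EO_O_cases he with ⟨a, ha, rfl⟩ | ⟨a, ha, rfl⟩
      · linarith [ih2 a ha]
      · linarith [ih1 a ha]
    · intro e he o ho
      rcases EO_E_cases he with ⟨a, ha, rfl⟩ | ⟨a, ha, rfl⟩ <;>
      rcases EO_O_cases ho with ⟨b, hb, rfl⟩ | ⟨b, hb, rfl⟩
      · linarith [ih3 a ha b hb]
      · linarith [ih1 a ha, ih1 b hb]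
      · linarith [ih2 a ha, ih2 b hb]
      · linarith [ih3 b hb a ha]

/-- Necessity of the cycle inequalities. -/
lemma necessity {V : Type*} [NormedAddCommGroup V] [InnerProductSpace ℝ V] (v : ℕ → V)
    (hv : ∀ i, v i ≠ 0) (m : ℕ) :
    (∀ e ∈ (EO (fun i => InnerProductGeometry.angle (v i) (v (i + 1))) m).1,
      InnerProductGeometry.angle (v 0) (v m) ≤ e) ∧
    ∀ o ∈ (EO (fun i => InnerProductGeometry.angle (v i) (v (i + 1))) m).2,
      Real.pi - InnerProductGeometry.angle (v 0) (v m) ≤ o := by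
  induction m with
  | zero =>
    constructor
    · intro e he
      simp [EO] at he
      rw [he, InnerProductGeometry.angle_self (hv 0)]
    · intro o ho
      simp [EO] at ho
  | succ m ih =>
    obtain ⟨ih1, ih2⟩ := ih
    have t1 := InnerProductGeometry.angle_le_angle_add_angle (v 0) (v m) (v (m + 1))
    have t2 := InnerProductGeometry.angle_le_angle_add_angle (v 0) (-v m) (v (m + 1))
    have t3 := InnerProductGeometry.angle_le_angle_add_angle (v 0) (v m) (-v (m + 1))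
    have t4 := InnerProductGeometry.angle_le_angle_add_angle (v 0) (-v m) (-v (m + 1))
    simp only [InnerProductGeometry.angle_neg_right, InnerProductGeometry.angle_neg_left] at t2 t3 t4
    constructor
    · intro e he
      rcases EO_E_cases he with ⟨a, ha, rfl⟩ | ⟨a, ha, rfl⟩
      · have := ih1 a ha
        linarith
      · have := ih2 a ha
        linarith
    · intro e he
      rcases EO_O_cases he with ⟨a, ha, rfl⟩ | ⟨a, ha, rfl⟩
      · have := ih2 a ha
        linarith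
      · have := ih1 a ha
        linarith

/-- The step of the induction: choice of the chord. -/
lemma exists_chord (θ : ℕ → ℝ) (hθ0 : ∀ i, 0 ≤ θ i) (hθpi : ∀ i, θ i ≤ Real.pi)
    (hq : ∀ i, ∃ q : ℚ, Real.cos (θ i) = q) (m : ℕ) (ψ : ℝ) (hψ0 : 0 ≤ ψ) (hψpi : ψ ≤ Real.pi)
    (hψq : ∃ q : ℚ, Real.cos ψ = q)
    (hE : ∀ e ∈ (EO θ (m + 1)).1, ψ ≤ e) (hO : ∀ o ∈ (EO θ (m + 1)).2, Real.pi - ψ ≤ o) :
    ∃ φ : ℝ, 0 ≤ φ ∧ φ ≤ Real.pi ∧ (∃ q : ℚ, Real.cos φ = q) ∧
      (∀ e ∈ (EO θ m).1, φ ≤ e) ∧ (∀ o ∈ (EO θ m).2, Real.pi - φ ≤ o) ∧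
      ψ - θ m ≤ φ ∧ θ m - ψ ≤ φ ∧ φ ≤ ψ + θ m ∧ φ ≤ 2 * Real.pi - ψ - θ m := by
  classical
  obtain ⟨rE, rO⟩ := EO_ratSum θ hθ0 hθpi hq m
  obtain ⟨nE, nO, nEO⟩ := EO_add θ hθ0 hθpi m
  have h0 := hθ0 m
  have h1 := hθpi m
  have hpi := Real.pi_pos
  have rψ : RatSum ψ := RatSum.of hψ0 hψq
  have rψ' : RatSum (Real.pi - ψ) := RatSum.of (by linarith) (cos_pi_sub_rat hψq)
  have rθ : RatSum (θ m) := RatSum.of h0 (hq m)
  have rθ' : RatSum (Real.pi - θ m) := RatSum.of (by linarith) (cos_pi_sub_rat (hq m))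
  have rpi : RatSum Real.pi := RatSum.of hpi.le ⟨-1, by simp⟩
  let A : Finset ℝ := {0, ψ - θ m, θ m - ψ} ∪ (EO θ m).2.image (fun o => Real.pi - o)
  let B : Finset ℝ := {Real.pi, ψ + θ m, 2 * Real.pi - ψ - θ m} ∪ (EO θ m).1
  have hAm : ∀ a, a ∈ A ↔ (a = 0 ∨ a = ψ - θ m ∨ a = θ m - ψ) ∨
      ∃ o ∈ (EO θ m).2, Real.pi - o = a := by
    intro a; simp [A, or_assoc]
  have hBm : ∀ b, b ∈ B ↔ (b = Real.pi ∨ b = ψ + θ m ∨ b = 2 * Real.pi - ψ - θ m) ∨
      b ∈ (EO θ m).1 := by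
    intro b; simp [B, or_assoc]
  obtain ⟨φ, hφA, hφB, hφq⟩ := exists_separating A B ((hAm _).mpr (Or.inl (Or.inl rfl)))
    ((hBm _).mpr (Or.inl (Or.inl rfl)))
    (by
      intro a ha b hb
      rw [hAm] at ha
      rw [hBm] at hb
      rcases ha with (rfl | rfl | rfl) | ⟨o, ho, rfl⟩ <;>
      rcases hb with (rfl | rfl | rfl) | hb
      · linarith
      · linarith
      · linarith
      · exact nE _ hb
      · linarith
      · linarith
      · linarith
      · linarith [hE _ (EO_E_left hb)]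
      · linarith
      · linarith
      · linarith
      · linarith [hO _ (EO_O_right hb)]
      · linarith [nO _ ho]
      · linarith [hO _ (EO_O_left ho)]
      · linarith [hE _ (EO_E_right ho)]
      · linarith [nEO _ hb _ ho])
    (by
      intro a ha
      rw [hAm] at ha
      rcases ha with (rfl | rfl | rfl) | ⟨o, ho, rfl⟩
      · simpa using rpi
      · have := rψ'.add rθ
        have e : Real.pi - (ψ - θ m) = Real.pi - ψ + θ m := by ring
        rwa [e]
      · have := rθ'.add rψ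
        have e : Real.pi - (θ m - ψ) = Real.pi - θ m + ψ := by ring
        rwa [e]
      · simpa using rO _ ho)
    (by
      intro b hb
      rw [hBm] at hb
      rcases hb with (rfl | rfl | rfl) | hb
      · exact rpi
      · exact rψ.add rθ
      · have := rψ'.add rθ'
        have e : 2 * Real.pi - ψ - θ m = Real.pi - ψ + (Real.pi - θ m) := by ring
        rwa [e]
      · exact rE _ hb)
  refine ⟨φ, hφA _ ((hAm _).mpr (by simp)), hφB _ ((hBm _).mpr (by simp)), hφq, ?_, ?_,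
    hφA _ ((hAm _).mpr (by simp)), hφA _ ((hAm _).mpr (by simp)),
    hφB _ ((hBm _).mpr (by simp)), hφB _ ((hBm _).mpr (by simp))⟩
  · intro e he
    exact hφB _ ((hBm _).mpr (Or.inr he))
  · intro o ho
    have := hφA _ ((hAm _).mpr (Or.inr ⟨o, ho, rfl⟩))
    linarith

/-- The determinant condition from the angle inequalities. -/
lemma triangle_cond {θ ψ φ : ℝ} (hφ0 : 0 ≤ φ) (hφ : φ ≤ Real.pi) (hθ0 : 0 ≤ θ)
    (hθpi : θ ≤ Real.pi) (hψ0 : 0 ≤ ψ) (hψpi : ψ ≤ Real.pi)
    (h1 : ψ - θ ≤ φ) (h2 : θ - ψ ≤ φ) (h3 : φ ≤ ψ + θ) (h4 : φ ≤ 2 * Real.pi - ψ - θ) :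
    (Real.cos φ - Real.cos θ * Real.cos ψ) ^ 2 ≤
      (1 - Real.cos θ ^ 2) * (1 - Real.cos ψ ^ 2) := by
  have hs1 : 0 ≤ Real.sin θ := Real.sin_nonneg_of_nonneg_of_le_pi hθ0 hθpi
  have hs2 : 0 ≤ Real.sin ψ := Real.sin_nonneg_of_nonneg_of_le_pi hψ0 hψpi
  have up : Real.cos φ ≤ Real.cos (ψ - θ) := by
    rw [← Real.cos_abs (ψ - θ)]
    apply Real.cos_le_cos_of_nonneg_of_le_pi (abs_nonneg _) hφ
    rw [abs_le]; constructor <;> linarith
  have low : Real.cos (ψ + θ) ≤ Real.cos φ := by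
    rcases le_total (ψ + θ) Real.pi with h | h
    · exact Real.cos_le_cos_of_nonneg_of_le_pi hφ0 h h3
    · have e : Real.cos (ψ + θ) = Real.cos (2 * Real.pi - ψ - θ) := by
        have e1 : 2 * Real.pi - ψ - θ = 2 * Real.pi - (ψ + θ) := by ring
        rw [e1, Real.cos_two_pi_sub]
      rw [e]
      exact Real.cos_le_cos_of_nonneg_of_le_pi hφ0 (by linarith) h4
  rw [Real.cos_sub] at up
  rw [Real.cos_add] at low
  have e1 : 1 - Real.cos θ ^ 2 = Real.sin θ ^ 2 := by
    have := Real.sin_sq_add_cos_sq θ; linarith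
  have e2 : 1 - Real.cos ψ ^ 2 = Real.sin ψ ^ 2 := by
    have := Real.sin_sq_add_cos_sq ψ; linarith
  rw [e1, e2, ← mul_pow]
  apply sq_le_sq'
  · linarith
  · linarith

/-- Coefficients for the new vector. -/
lemma exists_coeffs (a b c : ℚ) (_ha : a ^ 2 ≤ 1) (hb : b ^ 2 ≤ 1) (hc : c ^ 2 ≤ 1)
    (h : (c - a * b) ^ 2 ≤ (1 - a ^ 2) * (1 - b ^ 2)) :
    ∃ α β : ℚ, α + β * c = b ∧ α * c + β = a ∧ α * b + β * a ≤ 1 := by
  by_cases hc1 : c ^ 2 = 1
  · have h2 : (a - b * c) ^ 2 ≤ 0 := by nlinarith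
    have h3 : a - b * c = 0 := by
      have := sq_nonneg (a - b * c)
      exact pow_eq_zero_iff (two_ne_zero) |>.mp (le_antisymm h2 this)
    refine ⟨b, 0, by ring, ?_, by nlinarith⟩
    linarith
  · have hc2 : 0 < 1 - c ^ 2 := by
      rcases hc.lt_or_eq with h | h
      · linarith
      · exact absurd h hc1
    refine ⟨(b - a * c) / (1 - c ^ 2), (a - b * c) / (1 - c ^ 2), ?_, ?_, ?_⟩
    · field_simp
      ring
    · field_simp
      ring
    · rw [div_mul_eq_mul_div, div_mul_eq_mul_div, ← add_div, div_le_one hc2]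
      nlinarith

/-- Sufficiency, with rational inner products. -/
lemma sufficiency (θ : ℕ → ℝ) (hθ0 : ∀ i, 0 ≤ θ i) (hθpi : ∀ i, θ i ≤ Real.pi)
    (hq : ∀ i, ∃ q : ℚ, Real.cos (θ i) = q) (m : ℕ) : ∀ (ψ : ℝ) (_ : 0 ≤ ψ) (_ : ψ ≤ Real.pi)
    (_ : ∃ q : ℚ, Real.cos ψ = q)
    (_ : ∀ e ∈ (EO θ m).1, ψ ≤ e) (_ : ∀ o ∈ (EO θ m).2, Real.pi - ψ ≤ o),
    ∃ (V : Type) (_ : NormedAddCommGroup V) (_ : InnerProductSpace ℝ V) (v : ℕ → V),
      (∀ i, i ≤ m → ⟪v i, v i⟫_ℝ = 1) ∧ (∀ i, i < m → ⟪v i, v (i + 1)⟫_ℝ = Real.cos (θ i)) ∧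
      ⟪v 0, v m⟫_ℝ = Real.cos ψ ∧ ∀ i j, i ≤ m → j ≤ m → ∃ q : ℚ, ⟪v i, v j⟫_ℝ = q := by
  induction m with
  | zero =>
    intro ψ hψ0 _ _ hE _
    have : ψ = 0 := le_antisymm (hE 0 (by simp [EO])) hψ0
    subst this
    refine ⟨ℝ, inferInstance, inferInstance, fun _ => 1, ?_, ?_, ?_, ?_⟩
    · intro i _; simp
    · intro i hi; omega
    · simp
    · intro i j _ _; exact ⟨1, by simp⟩
  | succ m ih =>
    intro ψ hψ0 hψpi hψq hE hO
    obtain ⟨φ, hφ0, hφpi, hφq, hφE, hφO, t1, t2, t3, t4⟩ :=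
      exists_chord θ hθ0 hθpi hq m ψ hψ0 hψpi hψq hE hO
    obtain ⟨V, iV1, iV2, v, hv1, hv2, hv3, hv4⟩ := ih φ hφ0 hφpi hφq hφE hφO
    have tri := triangle_cond hφ0 hφpi (hθ0 m) (hθpi m) hψ0 hψpi t1 t2 t3 t4
    obtain ⟨a, ha⟩ := hq m
    obtain ⟨b, hb⟩ := hψq
    obtain ⟨c, hc⟩ := hφq
    rw [ha, hb, hc] at tri
    have htri : (c - a * b) ^ 2 ≤ (1 - a ^ 2) * (1 - b ^ 2) := by exact_mod_cast tri
    have ha1 : a ^ 2 ≤ 1 := by
      have := Real.cos_sq_le_one (θ m)
      rw [ha] at this; exact_mod_cast this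
    have hb1 : b ^ 2 ≤ 1 := by
      have := Real.cos_sq_le_one ψ
      rw [hb] at this; exact_mod_cast this
    have hc1 : c ^ 2 ≤ 1 := by
      have := Real.cos_sq_le_one φ
      rw [hc] at this; exact_mod_cast this
    obtain ⟨α, β, e1, e2, e3⟩ := exists_coeffs a b c ha1 hb1 hc1 htri
    -- real versions
    have e1' : (α : ℝ) + β * c = b := by exact_mod_cast e1
    have e2' : (α : ℝ) * c + β = a := by exact_mod_cast e2
    have e3' : (α : ℝ) * b + β * a ≤ 1 := by exact_mod_cast e3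
    set w : V := (α : ℝ) • v 0 + (β : ℝ) • v m with hw
    have hv00 : ⟪v 0, v 0⟫_ℝ = 1 := hv1 0 (Nat.zero_le _)
    have hvmm : ⟪v m, v m⟫_ℝ = 1 := hv1 m le_rfl
    have hv0m : ⟪v 0, v m⟫_ℝ = c := by rw [hv3, hc]
    have hvm0 : ⟪v m, v 0⟫_ℝ = c := by rw [real_inner_comm, hv0m]
    have hw0 : ⟪v 0, w⟫_ℝ = b := by
      rw [hw, inner_add_right, inner_smul_right, inner_smul_right, hv00, hv0m]
      linarith
    have hwm : ⟪v m, w⟫_ℝ = a := by
      rw [hw, inner_add_right, inner_smul_right, inner_smul_right, hvmm, hvm0]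
      linarith
    have hww : ⟪w, w⟫_ℝ = α * b + β * a := by
      nth_rewrite 1 [hw]
      rw [inner_add_left, inner_smul_left, inner_smul_left, hw0, hwm]
      simp
    set γ : ℝ := Real.sqrt (1 - (α * b + β * a)) with hγ
    have hγ2 : γ * γ = 1 - (α * b + β * a) := Real.mul_self_sqrt (by linarith)
    let v' : ℕ → WithLp 2 (V × ℝ) := fun i =>
      if i ≤ m then WithLp.toLp 2 (v i, 0) else WithLp.toLp 2 (w, γ)
    have hin1 : ∀ i j, i ≤ m → j ≤ m → ⟪v' i, v' j⟫_ℝ = ⟪v i, v j⟫_ℝ := by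
      intro i j hi hj
      simp [v', hi, hj]
    have hin2 : ∀ i, i ≤ m → ⟪v' i, v' (m + 1)⟫_ℝ = ⟪v i, w⟫_ℝ := by
      intro i hi
      simp [v', hi]
    have hin3 : ⟪v' (m + 1), v' (m + 1)⟫_ℝ = 1 := by
      have h0 : v' (m + 1) = WithLp.toLp 2 (w, γ) := by simp [v']
      have h1 : ⟪v' (m + 1), v' (m + 1)⟫_ℝ = ⟪w, w⟫_ℝ + γ * γ := by
        rw [h0, WithLp.prod_inner_apply]
        rfl
      rw [h1, hww, hγ2]; ring
    refine ⟨WithLp 2 (V × ℝ), inferInstance, inferInstance, v', ?_, ?_, ?_, ?_⟩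
    · intro i hi
      rcases Nat.lt_or_ge m i with h | h
      · have : i = m + 1 := by omega
        subst this; exact hin3
      · rw [hin1 i i h h]; exact hv1 i h
    · intro i hi
      rcases Nat.lt_or_ge i m with h | h
      · rw [hin1 i (i + 1) h.le h]; exact hv2 i h
      · have : i = m := by omega
        subst this
        rw [hin2 i le_rfl, hwm, ha]
    · rw [hin2 0 (Nat.zero_le _), hw0, hb]
    · have hrat : ∀ i, i ≤ m → ∃ q : ℚ, ⟪v i, w⟫_ℝ = q := by
        intro i hi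
        obtain ⟨q0, hq0⟩ := hv4 i 0 hi (Nat.zero_le _)
        obtain ⟨qm, hqm⟩ := hv4 i m hi le_rfl
        refine ⟨α * q0 + β * qm, ?_⟩
        rw [hw, inner_add_right, inner_smul_right, inner_smul_right, hq0, hqm]
        push_cast; ring
      intro i j hi hj
      rcases Nat.lt_or_ge m i with h | h <;> rcases Nat.lt_or_ge m j with h' | h'
      · have e1 : i = m + 1 := by omega
        have e2 : j = m + 1 := by omega
        subst e1; subst e2
        exact ⟨1, by rw [hin3]; simp⟩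
      · have e1 : i = m + 1 := by omega
        subst e1
        obtain ⟨q, hq⟩ := hrat j h'
        exact ⟨q, by rw [real_inner_comm, hin2 j h', hq]⟩
      · have e1 : j = m + 1 := by omega
        subst e1
        obtain ⟨q, hq⟩ := hrat i h
        exact ⟨q, by rw [hin2 i h, hq]⟩
      · rw [hin1 i j h h']; exact hv4 i j h h'

/-- A psd matrix is a Gram matrix. -/
lemma exists_vectors {n : ℕ} (X : Matrix (Fin n) (Fin n) ℝ) (hX : X.PosSemidef) :
    ∃ w : Fin n → EuclideanSpace ℝ (Fin n), ∀ i j, ⟪w i, w j⟫_ℝ = X i j := by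
  obtain ⟨B, hB⟩ :=
    CStarAlgebra.nonneg_iff_eq_star_mul_self.mp (Matrix.nonneg_iff_posSemidef.mpr hX)
  refine ⟨fun i => WithLp.toLp 2 (fun k => B k i), fun i j => ?_⟩
  rw [hB]
  simp [PiLp.inner_apply, Matrix.mul_apply, Matrix.star_eq_conjTranspose, mul_comm]

/-- **Rational psd completion on cycles.**  Let `n ≥ 3` (written `n = m + 3`) and let `x` be a
rational vector indexed by the edges `{i, i + 1}` (indices mod `n`) of the cycle `C_n`.  If `x` has a
real psd completion `X` (a real positive semidefinite matrix with unit diagonal and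
`X i (i + 1) = x i`), then it has a psd completion `Y` all of whose entries are rational. -/
theorem result (m : ℕ) (x : Fin (m + 3) → ℚ)
    (h : ∃ X : Matrix (Fin (m + 3)) (Fin (m + 3)) ℝ,
      X.PosSemidef ∧ (∀ i, X i i = 1) ∧ ∀ i, X i (i + 1) = (x i : ℝ)) :
    ∃ Y : Matrix (Fin (m + 3)) (Fin (m + 3)) ℚ,
      (Y.map (fun q : ℚ => (q : ℝ))).PosSemidef ∧ (∀ i, Y i i = 1) ∧ ∀ i, Y i (i + 1) = x i := by
  obtain ⟨X, hX, hdiag, hedge⟩ := h
  obtain ⟨w, hw⟩ := exists_vectors X hX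
  have hwn : ∀ i, ‖w i‖ = 1 := by
    intro i
    have h1 := hw i i
    rw [hdiag, real_inner_self_eq_norm_sq] at h1
    have h2 := norm_nonneg (w i)
    nlinarith [sq_nonneg (‖w i‖ - 1)]
  -- sequence of vectors indexed by ℕ
  let v : ℕ → EuclideanSpace ℝ (Fin (m + 3)) := fun k => w (Fin.ofNat (m + 3) k)
  have hvn : ∀ i, ‖v i‖ = 1 := fun i => hwn _
  have hv0 : ∀ i, v i ≠ 0 := by
    intro i h
    have := hvn i
    rw [h] at this
    simp at this
  have hedge' : ∀ k : ℕ, ⟪v k, v (k + 1)⟫_ℝ = (x (Fin.ofNat (m + 3) k) : ℝ) := by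
    intro k
    have e : Fin.ofNat (m + 3) (k + 1) = Fin.ofNat (m + 3) k + 1 := by
      apply Fin.ext
      simp [Fin.val_add, Fin.ofNat]
    simp only [v]
    rw [e, hw, hedge]
  set θ : ℕ → ℝ := fun i => InnerProductGeometry.angle (v i) (v (i + 1)) with hθ
  have hcosθ : ∀ i, Real.cos (θ i) = (x (Fin.ofNat (m + 3) i) : ℝ) := by
    intro i
    simp only [hθ]
    rw [InnerProductGeometry.cos_angle, hvn, hvn, hedge']
    simp
  have hθ0 : ∀ i, 0 ≤ θ i := fun i => InnerProductGeometry.angle_nonneg _ _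
  have hθpi : ∀ i, θ i ≤ Real.pi := fun i => InnerProductGeometry.angle_le_pi _ _
  set ψ : ℝ := InnerProductGeometry.angle (v 0) (v (m + 2)) with hψ
  have hcosψ : Real.cos ψ = (x (Fin.last (m + 2)) : ℝ) := by
    rw [hψ, InnerProductGeometry.cos_angle, hvn, hvn]
    have e1 : Fin.ofNat (m + 3) (m + 2) = Fin.last (m + 2) := by
      apply Fin.ext
      simp [Fin.ofNat]
    have e2 : (Fin.ofNat (m + 3) 0) = Fin.last (m + 2) + 1 := by
      apply Fin.ext
      simp [Fin.ofNat]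
    have : ⟪v 0, v (m + 2)⟫_ℝ = (x (Fin.last (m + 2)) : ℝ) := by
      rw [real_inner_comm]
      simp only [v]
      rw [e1, e2, hw, hedge]
    rw [this]; simp
  obtain ⟨nE, nO⟩ := necessity v hv0 (m + 2)
  obtain ⟨V, iV1, iV2, u, hu1, hu2, hu3, hu4⟩ := sufficiency θ hθ0 hθpi
    (fun i => ⟨_, hcosθ i⟩) (m + 2) ψ (InnerProductGeometry.angle_nonneg _ _)
    (InnerProductGeometry.angle_le_pi _ _) ⟨_, hcosψ⟩ nE nO
  have hrat : ∀ i j : Fin (m + 3), ∃ q : ℚ, ⟪u i, u j⟫_ℝ = q := by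
    intro i j
    exact hu4 i j (by have := i.isLt; omega) (by have := j.isLt; omega)
  choose Y hY using hrat
  refine ⟨Matrix.of Y, ?_, ?_, ?_⟩
  · have e : (Matrix.of Y).map (fun q : ℚ => (q : ℝ)) =
        Matrix.gram ℝ (fun i : Fin (m + 3) => u i) := by
      ext i j
      simp [Matrix.gram, hY]
    rw [e]
    exact Matrix.posSemidef_gram ℝ _
  · intro i
    have h1 := hY i i
    rw [hu1 i (by have := i.isLt; omega)] at h1
    have : (1 : ℚ) = Y i i := by exact_mod_cast h1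
    simpa using this.symm
  · intro i
    have h1 := hY i (i + 1)
    have h2 : ⟪u (i : ℕ), u ((i + 1 : Fin (m + 3)) : ℕ)⟫_ℝ = (x i : ℝ) := by
      rcases Nat.lt_or_ge (i : ℕ) (m + 2) with hi | hi
      · have e : ((i + 1 : Fin (m + 3)) : ℕ) = (i : ℕ) + 1 := by
          rw [Fin.val_add]
          simp
          omega
        rw [e, hu2 _ hi, hcosθ]
        congr 2
        apply Fin.ext
        simp [Fin.ofNat]
        omega
      · have hi' : i = Fin.last (m + 2) := by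
          apply Fin.ext
          have := i.isLt
          simp only [Fin.val_last]
          omega
        subst hi'
        have e : ((Fin.last (m + 2) + 1 : Fin (m + 3)) : ℕ) = 0 := by
          simp
        rw [e, real_inner_comm]
        have e2 : ((Fin.last (m + 2) : Fin (m + 3)) : ℕ) = m + 2 := by simp
        rw [e2, hu3, hcosψ]
    rw [h2] at h1
    have : x i = Y i (i + 1) := by exact_mod_cast h1
    simpa using this.symm

end Pool.Agent.Results.MP_dcc435_co.CycleRationalCompletion
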